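import Pool.Agent.H21SS.TaskC_helper802

/-!
# Taylor coefficients at zero: a small calculus
-/

open Metric Set Filter Topology

namespace Pool.Agent.Q161.Tay

/-- `n`-th Taylor coefficient at `0`. -/
noncomputable def tc (f : ℂ → ℂ) (n : ℕ) : ℂ := iteratedDeriv n f 0 / (n.factorial : ℂ)

lemma tc_eq (f : ℂ → ℂ) (n : ℕ) : tc f n = Pool.Agent.H21SS.tc f n := rfl

lemma tc_zero (f : ℂ → ℂ) : tc f 0 = f 0 := by simp [tc]

lemma tc_one (f : ℂ → ℂ) : tc f 1 = deriv f 0 := by simp [tc]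

lemma tc_congr {F G : ℂ → ℂ} (h : F =ᶠ[𝓝 0] G) (n : ℕ) : tc F n = tc G n := by
  unfold tc; rw [h.iteratedDeriv_eq n]

lemma tc_add {F G : ℂ → ℂ} (hF : AnalyticAt ℂ F 0) (hG : AnalyticAt ℂ G 0) (N : ℕ) :
    tc (fun z => F z + G z) N = tc F N + tc G N := by
  unfold tc
  rw [iteratedDeriv_fun_add hF.contDiffAt hG.contDiffAt, add_div]

lemma tc_sub {F G : ℂ → ℂ} (hF : AnalyticAt ℂ F 0) (hG : AnalyticAt ℂ G 0) (N : ℕ) :
    tc (fun z => F z - G z) N = tc F N - tc G N := by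
  unfold tc
  rw [iteratedDeriv_fun_sub hF.contDiffAt hG.contDiffAt, sub_div]

lemma tc_mul {F G : ℂ → ℂ} (hF : AnalyticAt ℂ F 0) (hG : AnalyticAt ℂ G 0) (N : ℕ) :
    tc (fun z => F z * G z) N = ∑ k ∈ Finset.range (N + 1), tc F k * tc G (N - k) := by
  have hFc : ContDiffAt ℂ N F 0 := hF.contDiffAt
  have hGc : ContDiffAt ℂ N G 0 := hG.contDiffAt
  unfold tc
  rw [iteratedDeriv_fun_mul hFc hGc, Finset.sum_div]
  apply Finset.sum_congr rfl
  intro k hk
  rw [Finset.mem_range] at hk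
  have hk' : k ≤ N := by omega
  have hch : (N.choose k : ℂ) * (k.factorial * (N - k).factorial) = N.factorial := by
    have := Nat.choose_mul_factorial_mul_factorial hk'
    rw [mul_assoc] at this
    exact_mod_cast this
  have h1 : (k.factorial : ℂ) ≠ 0 := by exact_mod_cast k.factorial_ne_zero
  have h2 : ((N - k).factorial : ℂ) ≠ 0 := by exact_mod_cast (N - k).factorial_ne_zero
  have h3 : (N.factorial : ℂ) ≠ 0 := by exact_mod_cast N.factorial_ne_zero
  rw [div_mul_div_comm, div_eq_div_iff h3 (mul_ne_zero h1 h2), ← hch]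
  ring

lemma tc_const (c : ℂ) (N : ℕ) : tc (fun _ => c) N = if N = 0 then c else 0 := by
  unfold tc
  rw [iteratedDeriv_const]
  split_ifs with h
  · simp [h]
  · simp

lemma tc_const_mul (F : ℂ → ℂ) (c : ℂ) (N : ℕ) :
    tc (fun z => c * F z) N = c * tc F N := by
  unfold tc
  rw [iteratedDeriv_const_mul_field]
  ring

lemma tc_id (N : ℕ) : tc (fun z => z) N = if N = 1 then 1 else 0 := by
  have := Pool.Agent.H21SS.C802.tc_pow 1 N
  simp only [pow_one] at this
  exact this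

lemma tc_id_mul {F : ℂ → ℂ} (hF : AnalyticAt ℂ F 0) (N : ℕ) :
    tc (fun z => z * F z) (N + 1) = tc F N := by
  rw [tc_mul (F := fun z => z) analyticAt_id hF]
  rw [Finset.sum_eq_single 1]
  · have := tc_id 1
    simp only [if_true] at this
    show tc (fun z => z) 1 * tc F (N + 1 - 1) = tc F N
    rw [this, one_mul, Nat.add_sub_cancel]
  · intro k _ hk
    have := tc_id k
    rw [if_neg hk] at this
    show tc (fun z => z) k * _ = 0
    rw [this, zero_mul]
  · intro h; simp at h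

lemma tc_deriv (F : ℂ → ℂ) (N : ℕ) : tc (deriv F) N = (N + 1) * tc F (N + 1) := by
  unfold tc
  rw [← iteratedDeriv_succ', Nat.factorial_succ]
  have h1 : (N.factorial : ℂ) ≠ 0 := by exact_mod_cast N.factorial_ne_zero
  have h2 : ((N : ℂ) + 1) ≠ 0 := by exact_mod_cast N.succ_ne_zero
  push_cast
  field_simp

lemma tc_euler {F : ℂ → ℂ} (hF : AnalyticAt ℂ F 0) (N : ℕ) :
    tc (fun z => z * deriv F z) N = N * tc F N := by
  cases N with
  | zero => rw [tc_zero]; simp
  | succ N => rw [tc_id_mul hF.deriv, tc_deriv]; push_cast; ring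

/-- Bessel's inequality for a function bounded by one on the unit disc. -/
theorem bessel_ball {ω : ℂ → ℂ} (hω : DifferentiableOn ℂ ω (ball 0 1))
    (hb : ∀ z ∈ ball (0 : ℂ) 1, ‖ω z‖ ≤ 1) (s : Finset ℕ) :
    ∑ k ∈ s, ‖tc ω k‖ ^ 2 ≤ 1 := by
  -- first for the dilations
  have key : ∀ ρ : ℝ, 0 < ρ → ρ < 1 → ∑ k ∈ s, (ρ ^ k * ‖tc ω k‖) ^ 2 ≤ 1 := by
    intro ρ h0 h1
    set F : ℂ → ℂ := fun z => ω (ρ * z) with hF
    have hd : DifferentiableOn ℂ F (ball 0 (1 / ρ)) := by
      apply hω.comp (by fun_prop)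
      intro z hz
      rw [mem_ball_zero_iff] at hz ⊢
      rw [norm_mul, Complex.norm_real, Real.norm_of_nonneg h0.le]
      rw [lt_div_iff₀ h0] at hz
      linarith
    have hR : 1 < 1 / ρ := by rw [lt_div_iff₀ h0]; linarith
    have h2 := (Pool.Agent.H21SS.C802.main F F (1 / ρ) hR hd hd)
    have h3 := h2.2.2.2.1 s
    have h4 : Real.circleAverage (fun z => ‖F z‖ ^ 2) 0 1 ≤ 1 := by
      apply Real.circleAverage_mono_on_of_le_circle
      · apply ContinuousOn.circleIntegrable zero_le_one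
        apply ContinuousOn.pow
        apply ContinuousOn.norm
        apply hd.continuousOn.mono
        intro z hz
        rw [mem_sphere_zero_iff_norm] at hz
        rw [mem_ball_zero_iff, hz]; exact hR
      · intro z hz
        rw [abs_one, mem_sphere_zero_iff_norm] at hz
        have : ‖F z‖ ≤ 1 := by
          apply hb
          rw [mem_ball_zero_iff, norm_mul, Complex.norm_real, Real.norm_of_nonneg h0.le, hz]
          linarith
        exact pow_le_one₀ (norm_nonneg _) this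
    have h5 : ∀ k, Pool.Agent.H21SS.cf F k = ρ ^ k * tc ω k := by
      intro k
      rw [tc_eq, ← Pool.Agent.H21SS.C802.cav_eq_tc ω 1 ρ h0 h1 hω,
        Real.circleAverage_eq_circleAverage_zero_one]
      have h1 : (ρ : ℂ) ^ k * Real.circleAverage
            (fun z => ω (ρ * z + 0) * ((ρ * z + 0) ^ k)⁻¹) 0 1 =
          Real.circleAverage (fun z => ((ρ : ℂ) ^ k) • (ω (ρ * z + 0) * ((ρ * z + 0) ^ k)⁻¹)) 0 1 := by
        rw [Real.circleAverage_fun_smul, smul_eq_mul]
      rw [h1]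
      unfold Pool.Agent.H21SS.cf
      apply Real.circleAverage_congr_sphere
      intro z hz
      have hrc : (ρ : ℂ) ≠ 0 := by exact_mod_cast h0.ne'
      simp only [add_zero, smul_eq_mul, hF]
      rw [mul_pow, mul_inv]
      field_simp
    refine le_trans (le_of_eq ?_) (h3.trans h4)
    apply Finset.sum_congr rfl
    intro k _
    rw [h5, norm_mul, norm_pow, Complex.norm_real, Real.norm_of_nonneg h0.le]
  -- let `ρ → 1`
  have hlim : Tendsto (fun ρ : ℝ => ∑ k ∈ s, (ρ ^ k * ‖tc ω k‖) ^ 2) (𝓝[<] 1)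
      (𝓝 (∑ k ∈ s, ((1 : ℝ) ^ k * ‖tc ω k‖) ^ 2)) := by
    apply Tendsto.mono_left _ nhdsWithin_le_nhds
    exact (by fun_prop : Continuous fun ρ : ℝ => ∑ k ∈ s, (ρ ^ k * ‖tc ω k‖) ^ 2).tendsto 1
  simp only [one_pow, one_mul] at hlim
  refine le_of_tendsto hlim ?_
  have : Ioo (0 : ℝ) 1 ∈ 𝓝[<] (1 : ℝ) := Ioo_mem_nhdsLT one_pos
  filter_upwards [this] with ρ hρ using key ρ hρ.1 hρ.2

end Pool.Agent.Q161.Tay
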